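import Mathlib

/-!
# The realizability preorder on perfect matchings is antisymmetric

For a perfect matching `M` of the complete graph on `[n]` let `U(s, m)` be the number of vertices
`j ≥ m` whose partner is `≥ s`.  For `s ≤ m` these numbers determine `M`.  Among the pairs
`(s, m)` with different values for `M` and `N` take one with `m - s` least; then the matching with
the smaller value, say `M`, contains the pair of the first and the last vertex between `s` and `m`
(if there are two of them), and a suitable graph containing `M` has a non-increasing degree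
sequence which is not the degree sequence of a graph containing `N`.
-/

set_option autoImplicit false

namespace Pool.Agent.Results.MP_cd59f5_co.Antisymmetric

open Finset

/-- `M` is (the edge set of) a perfect matching of the complete graph on the vertices `Fin n`. -/
def IsPerfectMatching {n : ℕ} (M : Set (Sym2 (Fin n))) : Prop :=
  (∀ e ∈ M, ¬ e.IsDiag) ∧ ∀ v : Fin n, ∃! e, e ∈ M ∧ v ∈ e

/-- The non-increasing sequences of positive integers which can realize `M`: they are the degree
sequences (in the given order of the vertices) of graphs containing `M`. -/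
def R {n : ℕ} (M : Set (Sym2 (Fin n))) : Set (Fin n → ℕ) :=
  {d | (∀ i j, i ≤ j → d j ≤ d i) ∧ (∀ i, 1 ≤ d i) ∧
    ∃ G : SimpleGraph (Fin n), (∀ i, (G.neighborSet i).ncard = d i) ∧ M ⊆ G.edgeSet}

/-- The preorder: `N ≼ M` if every sequence that can realize `M` can realize `N`. -/
def Below {n : ℕ} (N M : Set (Sym2 (Fin n))) : Prop := R M ⊆ R N

/-! ### The numbers `U` -/

section U

variable {n : ℕ}

/-- number of vertices `j ≥ m` whose partner is at least `s` -/
def U (p : Fin n → Fin n) (s m : ℕ) : ℕ :=
  (univ.filter fun j : Fin n => m ≤ j.val ∧ s ≤ (p j).val).card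

lemma U_eq (p : Fin n → Fin n) (s m : ℕ) :
    U p s m = ∑ j : Fin n, if m ≤ j.val ∧ s ≤ (p j).val then 1 else 0 := by
  unfold U
  rw [Finset.card_filter]

lemma U_rec (p : Fin n → Fin n) (s m : ℕ) :
    U p s m + U p (s + 1) (m + 1) = U p s (m + 1) + U p (s + 1) m +
      ∑ j : Fin n, if j.val = m ∧ (p j).val = s then 1 else 0 := by
  simp only [U_eq]
  rw [← Finset.sum_add_distrib, ← Finset.sum_add_distrib, ← Finset.sum_add_distrib]
  refine Finset.sum_congr rfl fun j _ => ?_
  split_ifs <;> omega

/-- the indicator -/
def ind (p : Fin n → Fin n) (s m : ℕ) : ℕ :=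
  ∑ j : Fin n, if j.val = m ∧ (p j).val = s then 1 else 0

lemma ind_le (p : Fin n → Fin n) (s m : ℕ) : ind p s m ≤ 1 := by
  unfold ind
  by_cases h : m < n
  · rw [Finset.sum_eq_single (⟨m, h⟩ : Fin n)]
    · split_ifs <;> omega
    · intro j _ hj
      rw [if_neg]
      rintro ⟨h1, _⟩
      exact hj (Fin.ext h1)
    · intro h'; exact absurd (Finset.mem_univ _) h'
  · rw [Finset.sum_eq_zero]
    · omega
    · intro j _
      rw [if_neg]
      have := j.isLt
      omega

lemma ind_one (p : Fin n → Fin n) (s m : ℕ) (h : ind p s m ≠ 0) :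
    ∃ j : Fin n, j.val = m ∧ (p j).val = s := by
  by_contra hcon
  push Not at hcon
  apply h
  unfold ind
  apply Finset.sum_eq_zero
  intro j _
  rw [if_neg]
  rintro ⟨h1, h2⟩
  exact hcon j h1 h2

lemma ind_ne (p : Fin n → Fin n) (j : Fin n) : ind p (p j).val j.val ≠ 0 := by
  unfold ind
  intro h
  rw [Finset.sum_eq_zero_iff] at h
  have := h j (Finset.mem_univ j)
  simp at this

lemma exists_ne (p q : Fin n → Fin n) (hp : ∀ i, p i ≠ i) (hpp : ∀ i, p (p i) = i)
    (hqq : ∀ i, q (q i) = i) (h : ∀ s m, s ≤ m → U p s m = U q s m) : p = q := by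
  have h1 : ∀ s m, s < m → ind p s m = ind q s m := by
    intro s m hsm
    have e1 := U_rec p s m
    have e2 := U_rec q s m
    rw [h s m (by omega), h (s + 1) (m + 1) (by omega), h s (m + 1) (by omega),
      h (s + 1) m (by omega)] at e1
    unfold ind
    omega
  have h2 : ∀ j, (p j).val < j.val → q j = p j := by
    intro j hj
    have h3 : ind q (p j).val j.val ≠ 0 := by
      rw [← h1 _ _ hj]; exact ind_ne p j
    obtain ⟨k, hk1, hk2⟩ := ind_one _ _ _ h3
    have : k = j := Fin.ext hk1
    subst this
    exact Fin.ext hk2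
  funext j
  rcases lt_trichotomy (p j).val j.val with hlt | heq | hgt
  · exact (h2 j hlt).symm
  · exact absurd (Fin.ext heq) (hp j)
  · have h4 := h2 (p j) (by rw [hpp]; exact hgt)
    rw [hpp] at h4
    have h5 := congrArg q h4
    rw [hqq] at h5
    exact h5

end U

/-! ### Pairings -/

lemma exists_pairing {α : Type} [DecidableEq α] (A : Finset α) (hA : Even A.card) :
    ∃ q : α → α, ∀ a ∈ A, q a ∈ A ∧ q a ≠ a ∧ q (q a) = a := by
  obtain ⟨k, hk⟩ := hA
  induction k generalizing A with
  | zero =>
    have : A = ∅ := by rw [← Finset.card_eq_zero]; omega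
    subst this
    exact ⟨id, by simp⟩
  | succ k ih =>
    obtain ⟨x, hx⟩ : A.Nonempty := by rw [← Finset.card_pos]; omega
    have h1 : (A.erase x).card = k + k + 1 := by rw [Finset.card_erase_of_mem hx]; omega
    obtain ⟨y, hy⟩ : (A.erase x).Nonempty := by rw [← Finset.card_pos]; omega
    have h2 : ((A.erase x).erase y).card = k + k := by rw [Finset.card_erase_of_mem hy]; omega
    obtain ⟨q, hq⟩ := ih ((A.erase x).erase y) h2
    have hyx : y ≠ x := (Finset.mem_erase.mp hy).1
    have hyA : y ∈ A := (Finset.mem_erase.mp hy).2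
    refine ⟨fun a => if a = x then y else if a = y then x else q a, ?_⟩
    intro a ha
    by_cases hax : a = x
    · subst hax
      simp [hyx, hyA]
    · by_cases hay : a = y
      · subst hay
        simp [hyx, hx, Ne.symm hyx]
      · have ha' : a ∈ (A.erase x).erase y := by simp [hax, hay, ha]
        obtain ⟨g1, g2, g3⟩ := hq a ha'
        rw [Finset.mem_erase, Finset.mem_erase] at g1
        simp only [hax, hay, if_false, g1.1, g1.2.1]
        exact ⟨g1.2.2, g2, g3⟩

/-! ### The graph -/

section Graph

variable {n : ℕ}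

/-- half of the adjacency -/
def E (p q : Fin n → Fin n) (A : Finset (Fin n)) (s m : ℕ) (i j : Fin n) : Prop :=
  (i.val < s ∧ j.val < m) ∨ (i.val + 1 < s ∧ m ≤ j.val) ∨
    (i.val < s ∧ m ≤ j.val ∧ (p j).val < s) ∨
    (s ≤ i.val ∧ i.val < m ∧ s ≤ j.val ∧ j.val < m ∧ ¬ (i ∈ A ∧ q i = j) ∧ ¬ (j ∈ A ∧ q j = i)) ∨
    p i = j

/-- the graph -/
def Gr (p q : Fin n → Fin n) (A : Finset (Fin n)) (s m : ℕ) : SimpleGraph (Fin n) where
  Adj i j := i ≠ j ∧ (E p q A s m i j ∨ E p q A s m j i)
  symm := ⟨fun i j h => ⟨h.1.symm, h.2.symm⟩⟩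
  loopless := ⟨fun i h => h.1 rfl⟩

variable (p q : Fin n → Fin n) (A : Finset (Fin n)) (s m : ℕ)
  (hp : ∀ i, p i ≠ i) (hpp : ∀ i, p (p i) = i)
  (hsm : s ≤ m) (hU : U p s m < n - m)
  (hAR : ∀ i ∈ A, s ≤ i.val ∧ i.val < m)
  (hq : ∀ i ∈ A, q i ∈ A ∧ q i ≠ i ∧ q (q i) = i) (hqp : ∀ i ∈ A, q i ≠ p i)

include hU in
lemma m_lt : m < n := by omega

include hU in
lemma s_pos : 0 < s := by
  by_contra h
  have h0 : s = 0 := by omega
  have : U p s m = n - m := by
    unfold U
    rw [h0]
    have e : (univ.filter fun j : Fin n => m ≤ j.val ∧ 0 ≤ (p j).val) =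
        univ \ (univ.filter fun j : Fin n => j.val < m) := by
      ext j; simp
    rw [e, Finset.card_sdiff_of_subset (Finset.filter_subset _ _), Fin.card_filter_val_lt]
    simp
    omega
  omega

include hp hpp hsm in
lemma nbr_T (i : Fin n) (hi : m ≤ i.val) (hps : (p i).val < s) :
    (Gr p q A s m).neighborSet i = {j | j.val < s} := by
  ext j
  simp only [SimpleGraph.mem_neighborSet, Gr, E, Set.mem_ofPred_eq]
  constructor
  · rintro ⟨hne, h⟩
    rcases h with h | h
    · rcases h with h | h | h | h | h
      · omega
      · omega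
      · omega
      · omega
      · rw [← h]; exact hps
    · rcases h with h | h | h | h | h
      · omega
      · omega
      · omega
      · omega
      · have : p i = j := by rw [← h, hpp]
        rw [← this]; exact hps
  · intro hj
    refine ⟨fun h => ?_, Or.inr (Or.inr (Or.inr (Or.inl ⟨hj, hi, hps⟩)))⟩
    rw [h] at hi
    omega

include hp hpp hsm in
lemma nbr_T' (i : Fin n) (hi : m ≤ i.val) (hps : s ≤ (p i).val) :
    (Gr p q A s m).neighborSet i = {j | j.val + 1 < s ∨ j = p i} := by
  ext j
  simp only [SimpleGraph.mem_neighborSet, Gr, E, Set.mem_ofPred_eq]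
  constructor
  · rintro ⟨hne, h⟩
    rcases h with h | h
    · rcases h with h | h | h | h | h
      · omega
      · omega
      · omega
      · omega
      · right; exact h.symm
    · rcases h with h | h | h | h | h
      · omega
      · left; omega
      · omega
      · omega
      · right; rw [← h, hpp]
  · rintro (hj | hj)
    · refine ⟨fun h => ?_, Or.inr (Or.inr (Or.inl ⟨hj, hi⟩))⟩
      rw [h] at hi
      omega
    · exact ⟨fun h => hp i (by rw [← hj, ← h]), Or.inl (Or.inr (Or.inr (Or.inr (Or.inr hj.symm))))⟩

lemma ncard_lt (k : ℕ) (hk : k ≤ n) : {j : Fin n | j.val < k}.ncard = k := by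
  have e : {j : Fin n | j.val < k} = ((univ.filter fun j : Fin n => j.val < k : Finset (Fin n)) :
      Set (Fin n)) := by
    ext j; simp
  rw [e, Set.ncard_coe_finset, Fin.card_filter_val_lt]
  omega

include hp hpp hsm hU in
/-- degrees in the last part -/
lemma deg_T (i : Fin n) (hi : m ≤ i.val) : ((Gr p q A s m).neighborSet i).ncard = s := by
  have hs := s_pos p s m hU
  have hm := m_lt p s m hU
  by_cases hps : (p i).val < s
  · rw [nbr_T p q A s m hp hpp hsm i hi hps, ncard_lt s (by omega)]
  · rw [nbr_T' p q A s m hp hpp hsm i hi (by omega)]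
    have e : {j : Fin n | j.val + 1 < s ∨ j = p i} = insert (p i) {j : Fin n | j.val < s - 1} := by
      ext j
      simp only [Set.mem_ofPred_eq, Set.mem_insert_iff]
      constructor
      · rintro (h | h)
        · right; omega
        · left; exact h
      · rintro (h | h)
        · right; exact h
        · left; omega
    rw [e, Set.ncard_insert_of_notMem, ncard_lt (s - 1) (by omega)]
    · omega
    · simp only [Set.mem_ofPred_eq]
      omega

include hpp hsm hAR hq hqp in
/-- neighbours in the middle part -/
lemma nbr_R (i : Fin n) (hi1 : s ≤ i.val) (hi2 : i.val < m) :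
    (Gr p q A s m).neighborSet i =
      {j | (j.val < m ∧ j ≠ i ∧ ¬ (i ∈ A ∧ q i = j)) ∨ (m ≤ j.val ∧ p i = j)} := by
  ext j
  simp only [SimpleGraph.mem_neighborSet, Gr, E, Set.mem_ofPred_eq]
  constructor
  · rintro ⟨hne, h⟩
    by_cases hjm : j.val < m
    · left
      refine ⟨hjm, Ne.symm hne, ?_⟩
      rintro ⟨h1, h2⟩
      have hjA : j ∈ A := by rw [← h2]; exact (hq i h1).1
      have hjs := (hAR j hjA).1
      rcases h with h | h
      · rcases h with h | h | h | h | h
        · omega
        · omega
        · omega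
        · exact h.2.2.2.2.1 ⟨h1, h2⟩
        · exact hqp i h1 (by rw [h2, h])
      · rcases h with h | h | h | h | h
        · omega
        · omega
        · omega
        · exact h.2.2.2.2.2 ⟨h1, h2⟩
        · exact hqp i h1 (by rw [h2, ← h, hpp])
    · right
      refine ⟨by omega, ?_⟩
      rcases h with h | h
      · rcases h with h | h | h | h | h
        · omega
        · omega
        · omega
        · omega
        · exact h
      · rcases h with h | h | h | h | h
        · omega
        · omega
        · omega
        · omega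
        · rw [← h, hpp]
  · rintro (⟨hj, hne, h⟩ | ⟨hj, h⟩)
    · refine ⟨Ne.symm hne, ?_⟩
      by_cases hjs : j.val < s
      · exact Or.inr (Or.inl ⟨hjs, hi2⟩)
      · refine Or.inl (Or.inr (Or.inr (Or.inr (Or.inl ⟨hi1, hi2, by omega, hj, h, ?_⟩))))
        rintro ⟨h1, h2⟩
        apply h
        obtain ⟨g1, _, g3⟩ := hq j h1
        rw [h2] at g1 g3
        exact ⟨g1, g3⟩
    · refine ⟨fun hij => ?_, Or.inl (Or.inr (Or.inr (Or.inr (Or.inr h))))⟩
      rw [hij] at hi2
      omega

open Classical in
include hpp hsm hAR hq hqp hU in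
/-- degrees in the middle part -/
lemma deg_R (i : Fin n) (hi1 : s ≤ i.val) (hi2 : i.val < m) :
    ((Gr p q A s m).neighborSet i).ncard + (if i ∈ A then 1 else 0) + 1 =
      m + (if m ≤ (p i).val then 1 else 0) := by
  have hm := m_lt p s m hU
  rw [nbr_R p q A s m hpp hsm hAR hq hqp i hi1 hi2]
  have e : {j : Fin n | (j.val < m ∧ j ≠ i ∧ ¬ (i ∈ A ∧ q i = j)) ∨ (m ≤ j.val ∧ p i = j)} =
      (((((univ.filter fun j : Fin n => j.val < m).erase i).filter fun j => ¬ (i ∈ A ∧ q i = j)) ∪
        (univ.filter fun j : Fin n => m ≤ j.val ∧ p i = j) : Finset (Fin n)) : Set (Fin n)) := by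
    ext j
    simp only [Set.mem_ofPred_eq, Finset.coe_union, Set.mem_union, Finset.mem_coe,
      Finset.mem_filter, Finset.mem_erase, Finset.mem_univ, true_and]
    tauto
  rw [e, Set.ncard_coe_finset, Finset.card_union_of_disjoint]
  · have c1 : ((univ.filter fun j : Fin n => j.val < m).erase i).card = m - 1 := by
      rw [Finset.card_erase_of_mem (by simp [hi2]), Fin.card_filter_val_lt]
      omega
    have c2 : (((univ.filter fun j : Fin n => j.val < m).erase i).filter
        fun j => ¬ (i ∈ A ∧ q i = j)).card + (if i ∈ A then 1 else 0) = m - 1 := by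
      by_cases hiA : i ∈ A
      · rw [if_pos hiA]
        have e2 : (((univ.filter fun j : Fin n => j.val < m).erase i).filter
            fun j => ¬ (i ∈ A ∧ q i = j)) =
            ((univ.filter fun j : Fin n => j.val < m).erase i).erase (q i) := by
          ext j
          simp only [Finset.mem_filter, Finset.mem_erase, Finset.mem_univ, true_and, hiA]
          constructor
          · rintro ⟨⟨h1, h2⟩, h3⟩
            exact ⟨fun h => h3 h.symm, h1, h2⟩
          · rintro ⟨h3, h1, h2⟩
            exact ⟨⟨h1, h2⟩, fun h => h3 h.symm⟩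
        obtain ⟨g1, g2, _⟩ := hq i hiA
        have g4 := hAR _ g1
        rw [e2, Finset.card_erase_of_mem, c1]
        · omega
        · simp [g2, g4.2]
      · rw [if_neg hiA, add_zero, ← c1]
        congr 1
        rw [Finset.filter_eq_self]
        intro j _ h
        exact hiA h.1
    have c3 : (univ.filter fun j : Fin n => m ≤ j.val ∧ p i = j).card =
        (if m ≤ (p i).val then 1 else 0) := by
      by_cases hpi : m ≤ (p i).val
      · rw [if_pos hpi, Finset.card_eq_one]
        refine ⟨p i, ?_⟩
        ext j
        simp only [Finset.mem_filter, Finset.mem_univ, true_and, Finset.mem_singleton]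
        constructor
        · rintro ⟨_, h⟩; exact h.symm
        · rintro rfl; exact ⟨hpi, rfl⟩
      · rw [if_neg hpi, Finset.card_eq_zero, Finset.filter_eq_empty_iff]
        rintro j _ ⟨h1, h2⟩
        rw [← h2] at h1
        exact hpi h1
    omega
  · rw [Finset.disjoint_left]
    intro j h1 h2
    simp only [Finset.mem_filter, Finset.mem_erase, Finset.mem_univ, true_and] at h1 h2
    omega

include hpp hsm hU in
/-- degree of the last vertex of the first part -/
lemma deg_last (i : Fin n) (hi : i.val + 1 = s) :
    ((Gr p q A s m).neighborSet i).ncard + U p s m + 1 = n := by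
  classical
  have hm := m_lt p s m hU
  have e : (Gr p q A s m).neighborSet i =
      (((univ.erase i) \ (univ.filter fun j : Fin n => m ≤ j.val ∧ s ≤ (p j).val) :
        Finset (Fin n)) : Set (Fin n)) := by
    ext j
    simp only [SimpleGraph.mem_neighborSet, Gr, E, Finset.coe_sdiff, Set.mem_diff, Finset.mem_coe,
      Finset.mem_erase, Finset.mem_filter, Finset.mem_univ, true_and, and_true]
    constructor
    · rintro ⟨hne, h⟩
      refine ⟨Ne.symm hne, ?_⟩
      rintro ⟨h1, h2⟩
      rcases h with h | h
      · rcases h with h | h | h | h | h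
        · omega
        · omega
        · omega
        · omega
        · rw [← h, hpp] at h2; omega
      · rcases h with h | h | h | h | h
        · omega
        · omega
        · omega
        · omega
        · rw [h] at h2; omega
    · rintro ⟨hne, h⟩
      refine ⟨Ne.symm hne, Or.inl ?_⟩
      by_cases hjm : j.val < m
      · exact Or.inl ⟨by omega, hjm⟩
      · exact Or.inr (Or.inr (Or.inl ⟨by omega, by omega, by
          by_contra hc; exact h ⟨by omega, by omega⟩⟩))
  rw [e, Set.ncard_coe_finset, Finset.card_sdiff_of_subset, Finset.card_erase_of_mem (mem_univ i)]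
  · unfold U at hU ⊢
    simp only [Finset.card_univ, Fintype.card_fin]
    omega
  · intro j hj
    simp only [Finset.mem_filter, Finset.mem_erase, Finset.mem_univ, true_and, and_true] at hj ⊢
    rintro rfl
    omega

/-- degree of the other vertices of the first part -/
lemma deg_S (i : Fin n) (hi : i.val + 1 < s) :
    ((Gr p q A s m).neighborSet i).ncard + 1 = n := by
  classical
  have e : (Gr p q A s m).neighborSet i = ((univ.erase i : Finset (Fin n)) : Set (Fin n)) := by
    ext j
    simp only [SimpleGraph.mem_neighborSet, Gr, E, Finset.mem_coe,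
      Finset.mem_erase, Finset.mem_univ, and_true]
    constructor
    · rintro ⟨hne, _⟩
      exact Ne.symm hne
    · intro hne
      refine ⟨Ne.symm hne, Or.inl ?_⟩
      by_cases hjm : j.val < m
      · exact Or.inl ⟨by omega, hjm⟩
      · exact Or.inr (Or.inl ⟨by omega, by omega⟩)
  rw [e, Set.ncard_coe_finset, Finset.card_erase_of_mem (mem_univ i)]
  simp only [Finset.card_univ, Fintype.card_fin]
  have := i.isLt
  omega

lemma deg_le (G : SimpleGraph (Fin n)) (i : Fin n) : (G.neighborSet i).ncard + 1 ≤ n := by
  classical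
  have h1 : G.neighborSet i ⊆ ((univ.erase i : Finset (Fin n)) : Set (Fin n)) := by
    intro j hj
    simp only [Finset.coe_erase, Set.mem_diff, Finset.mem_coe, mem_univ, true_and,
      Set.mem_singleton_iff]
    rintro rfl
    exact G.loopless.irrefl _ hj
  have h2 := Set.ncard_le_ncard h1 (Finset.finite_toSet _)
  rw [Set.ncard_coe_finset, Finset.card_erase_of_mem (mem_univ i)] at h2
  simp only [Finset.card_univ, Fintype.card_fin] at h2
  have := i.isLt
  omega

include hp hpp hsm hAR hq hqp hU in
open Classical in
lemma degrees_antitone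
    (hsort : ∀ i j : Fin n, s ≤ i.val → i < j → j.val < m →
      (if m ≤ (p j).val then 1 else 0) + (if i ∈ A then 1 else 0) ≤
        (if m ≤ (p i).val then 1 else 0) + (if j ∈ A then 1 else 0))
    (hlow : ∀ i ∈ A, s + 2 ≤ m) (i j : Fin n) (hij : i ≤ j) :
    ((Gr p q A s m).neighborSet j).ncard ≤ ((Gr p q A s m).neighborSet i).ncard := by
  rcases eq_or_lt_of_le hij with rfl | hlt
  · exact le_rfl
  have hlt' : i.val < j.val := hlt
  by_cases h1 : i.val + 1 < s
  · have := deg_S p q A s m i h1
    have := deg_le (Gr p q A s m) j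
    omega
  by_cases h2 : i.val + 1 = s
  · have g1 := deg_last p q A s m hpp hsm hU i h2
    by_cases hjm : j.val < m
    · have g2 := deg_R p q A s m hpp hsm hU hAR hq hqp j (by omega) hjm
      split_ifs at g2 <;> omega
    · have g2 := deg_T p q A s m hp hpp hsm hU j (by omega)
      omega
  by_cases h3 : i.val < m
  · have g1 := deg_R p q A s m hpp hsm hU hAR hq hqp i (by omega) h3
    by_cases hjm : j.val < m
    · have g2 := deg_R p q A s m hpp hsm hU hAR hq hqp j (by omega) hjm
      have g3 := hsort i j (by omega) hlt hjm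
      omega
    · have g2 := deg_T p q A s m hp hpp hsm hU j (by omega)
      by_cases hiA : i ∈ A
      · have g3 := hlow i hiA
        rw [if_pos hiA] at g1
        split_ifs at g1 <;> omega
      · rw [if_neg hiA] at g1
        split_ifs at g1 <;> omega
  · have g1 := deg_T p q A s m hp hpp hsm hU i (by omega)
    have g2 := deg_T p q A s m hp hpp hsm hU j (by omega)
    omega

include hp hpp hsm hAR hq hqp hU in
open Classical in
lemma degrees_pos (hlow : ∀ i ∈ A, s + 2 ≤ m) (i : Fin n) :
    1 ≤ ((Gr p q A s m).neighborSet i).ncard := by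
  have hs := s_pos p s m hU
  have hm := m_lt p s m hU
  by_cases h1 : i.val + 1 < s
  · have := deg_S p q A s m i h1
    omega
  by_cases h2 : i.val + 1 = s
  · have g1 := deg_last p q A s m hpp hsm hU i h2
    omega
  by_cases h3 : i.val < m
  · have g1 := deg_R p q A s m hpp hsm hU hAR hq hqp i (by omega) h3
    by_cases hiA : i ∈ A
    · have g3 := hlow i hiA
      rw [if_pos hiA] at g1
      split_ifs at g1 <;> omega
    · rw [if_neg hiA] at g1
      split_ifs at g1 <;> omega
  · have g1 := deg_T p q A s m hp hpp hsm hU i (by omega)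
    omega

include hp hpp hsm hU in
lemma tight : (∑ i ∈ univ.filter (fun i : Fin n => i.val < s),
      ((Gr p q A s m).neighborSet i).ncard) + s + U p s m =
    s * m + ∑ j ∈ univ.filter (fun j : Fin n => m ≤ j.val),
      ((Gr p q A s m).neighborSet j).ncard := by
  classical
  have hs := s_pos p s m hU
  have hm := m_lt p s m hU
  have e1 : ∑ j ∈ univ.filter (fun j : Fin n => m ≤ j.val),
      ((Gr p q A s m).neighborSet j).ncard = (n - m) * s := by
    rw [Finset.sum_congr rfl (g := fun _ => s)]
    · rw [Finset.sum_const, smul_eq_mul]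
      congr 1
      have e : (univ.filter fun j : Fin n => m ≤ j.val) =
          univ \ (univ.filter fun j : Fin n => j.val < m) := by
        ext j; simp
      rw [e, Finset.card_sdiff_of_subset (Finset.filter_subset _ _), Fin.card_filter_val_lt]
      simp only [Finset.card_univ, Fintype.card_fin]
      omega
    · intro j hj
      simp only [Finset.mem_filter, Finset.mem_univ, true_and] at hj
      exact deg_T p q A s m hp hpp hsm hU j hj
  have hlast : s - 1 < n := by omega
  let l : Fin n := ⟨s - 1, hlast⟩
  have hl : l ∈ univ.filter (fun i : Fin n => i.val < s) := by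
    simp only [Finset.mem_filter, Finset.mem_univ, true_and, l]
    omega
  have e2 : (∑ i ∈ univ.filter (fun i : Fin n => i.val < s),
      (((Gr p q A s m).neighborSet i).ncard + 1)) + U p s m = s * n := by
    rw [← Finset.add_sum_erase _ _ hl]
    have e3 : ∑ i ∈ (univ.filter (fun i : Fin n => i.val < s)).erase l,
        (((Gr p q A s m).neighborSet i).ncard + 1) = (s - 1) * n := by
      rw [Finset.sum_congr rfl (g := fun _ => n)]
      · rw [Finset.sum_const, smul_eq_mul, Finset.card_erase_of_mem hl, Fin.card_filter_val_lt]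
        congr 1
        omega
      · intro i hi
        simp only [Finset.mem_erase, Finset.mem_filter, Finset.mem_univ, true_and] at hi
        apply deg_S
        have : i.val ≠ s - 1 := fun h => hi.1 (Fin.ext h)
        omega
    rw [e3]
    have g := deg_last p q A s m hpp hsm hU l (by simp only [l]; omega)
    obtain ⟨s', rfl⟩ : ∃ s', s = s' + 1 := ⟨s - 1, by omega⟩
    simp only [Nat.add_sub_cancel]
    have : (s' + 1) * n = s' * n + n := by ring
    omega
  rw [Finset.sum_add_distrib, Finset.sum_const, Fin.card_filter_val_lt] at e2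
  simp only [smul_eq_mul, mul_one] at e2
  have e4 : min n s = s := by omega
  rw [e4] at e2
  rw [e1, e2]
  obtain ⟨k, rfl⟩ : ∃ k, n = m + k := ⟨n - m, by omega⟩
  have : m + k - m = k := by omega
  rw [this]
  ring

/-- the inequality for all graphs containing the matching -/
lemma bound (G : SimpleGraph (Fin n)) (hG : ∀ i, G.Adj i (p i)) (hmn : m ≤ n) (hsm : s ≤ m) :
    (∑ i ∈ univ.filter (fun i : Fin n => i.val < s), (G.neighborSet i).ncard) + s + U p s m ≤
    s * m + ∑ j ∈ univ.filter (fun j : Fin n => m ≤ j.val), (G.neighborSet j).ncard := by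
  classical
  have hN : ∀ i, (G.neighborSet i).ncard = (univ.filter fun j => G.Adj i j).card := by
    intro i
    rw [← Set.ncard_coe_finset]
    congr 1
    ext j; simp
  have h1 : ∀ i ∈ univ.filter (fun i : Fin n => i.val < s), (G.neighborSet i).ncard + 1 ≤
      m + ∑ j ∈ univ.filter (fun j : Fin n => m ≤ j.val), if G.Adj i j then 1 else 0 := by
    intro i hi
    simp only [Finset.mem_filter, Finset.mem_univ, true_and] at hi
    rw [hN, ← Finset.card_filter]
    have e1 : (univ.filter fun j => G.Adj i j) ⊆
        ((univ.filter fun j : Fin n => j.val < m).erase i) ∪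
        ((univ.filter fun j : Fin n => m ≤ j.val).filter fun j => G.Adj i j) := by
      intro j hj
      simp only [Finset.mem_filter, Finset.mem_univ, true_and] at hj
      simp only [Finset.mem_union, Finset.mem_erase, Finset.mem_filter, Finset.mem_univ, true_and]
      by_cases hjm : j.val < m
      · exact Or.inl ⟨fun h => G.loopless.irrefl _ (h ▸ hj), hjm⟩
      · exact Or.inr ⟨by omega, hj⟩
    have e2 := (Finset.card_le_card e1).trans (Finset.card_union_le _ _)
    rw [Finset.card_erase_of_mem (by simp; omega), Fin.card_filter_val_lt] at e2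
    omega
  have h2 : ∀ j ∈ univ.filter (fun j : Fin n => m ≤ j.val),
      (∑ i ∈ univ.filter (fun i : Fin n => i.val < s), if G.Adj i j then 1 else 0) +
        (if s ≤ (p j).val then 1 else 0) ≤ (G.neighborSet j).ncard := by
    intro j _
    rw [hN, ← Finset.card_filter]
    have e3 : (if s ≤ (p j).val then 1 else 0) =
        (({p j} : Finset (Fin n)).filter fun i => s ≤ i.val).card := by
      rw [Finset.filter_singleton]
      split_ifs <;> simp
    rw [e3, ← Finset.card_union_of_disjoint]
    · apply Finset.card_le_card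
      intro i hi
      simp only [Finset.mem_union, Finset.mem_filter, Finset.mem_univ, true_and,
        Finset.mem_singleton] at hi ⊢
      rcases hi with ⟨_, h⟩ | ⟨rfl, _⟩
      · exact h.symm
      · exact hG j
    · rw [Finset.disjoint_left]
      intro i hi hi'
      simp only [Finset.mem_filter, Finset.mem_univ, true_and] at hi hi'
      omega
  have h3 := Finset.sum_le_sum h1
  have h4 := Finset.sum_le_sum h2
  rw [Finset.sum_add_distrib, Finset.sum_add_distrib, Finset.sum_const, Finset.sum_const,
    Fin.card_filter_val_lt] at h3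
  rw [Finset.sum_add_distrib, Finset.sum_comm, ← Finset.card_filter, Finset.filter_filter] at h4
  simp only [smul_eq_mul, mul_one] at h3
  have e4 : min n s = s := by omega
  rw [e4] at h3
  have e5 : (univ.filter fun j : Fin n => m ≤ j.val ∧ s ≤ (p j).val).card = U p s m := rfl
  rw [e5] at h4
  omega

lemma U_le (p' : Fin n → Fin n) : U p' s m ≤ n - m := by
  classical
  unfold U
  have e : (univ.filter fun j : Fin n => m ≤ j.val ∧ s ≤ (p' j).val) ⊆
      univ \ (univ.filter fun j : Fin n => j.val < m) := by
    intro j hj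
    simp only [Finset.mem_filter, Finset.mem_univ, true_and, Finset.mem_sdiff] at hj ⊢
    omega
  have h := Finset.card_le_card e
  rw [Finset.card_sdiff_of_subset (Finset.filter_subset _ _), Fin.card_filter_val_lt] at h
  simp only [Finset.card_univ, Fintype.card_fin] at h
  omega

include hp hpp hsm in
lemma step (p' : Fin n → Fin n) (hlt : U p s m < U p' s m)
    (hz : m ≤ s + 1 ∨ (s + 2 ≤ m ∧ ∃ z : Fin n, z.val + 1 = m ∧ (p z).val = s)) :
    ∃ G : SimpleGraph (Fin n), (∀ i, G.Adj i (p i)) ∧
      (∀ i j : Fin n, i ≤ j → (G.neighborSet j).ncard ≤ (G.neighborSet i).ncard) ∧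
      (∀ i, 1 ≤ (G.neighborSet i).ncard) ∧
      ∀ G' : SimpleGraph (Fin n), (∀ i, G'.Adj i (p' i)) →
        ¬ ∀ i, (G'.neighborSet i).ncard = (G.neighborSet i).ncard := by
  classical
  have hU : U p s m < n - m := lt_of_lt_of_le hlt (U_le s m p')
  have hmn : m ≤ n := by omega
  -- the pairing
  obtain ⟨A, q, hAR, hq, hqp, hsort, hlow⟩ : ∃ (A : Finset (Fin n)) (q : Fin n → Fin n),
      (∀ i ∈ A, s ≤ i.val ∧ i.val < m) ∧
      (∀ i ∈ A, q i ∈ A ∧ q i ≠ i ∧ q (q i) = i) ∧ (∀ i ∈ A, q i ≠ p i) ∧
      (∀ i j : Fin n, s ≤ i.val → i < j → j.val < m →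
        (if m ≤ (p j).val then 1 else 0) + (if i ∈ A then 1 else 0) ≤
          (if m ≤ (p i).val then 1 else 0) + (if j ∈ A then 1 else 0)) ∧
      (∀ i ∈ A, s + 2 ≤ m) := by
    rcases hz with hz | ⟨h2, z, hz1, hz2⟩
    · refine ⟨∅, id, by simp, by simp, by simp, ?_, by simp⟩
      intro i j h1 h2 h3
      have : i.val < j.val := h2
      omega
    · let C : Finset (Fin n) := univ.filter fun i => s ≤ i.val ∧ i.val < m ∧ m ≤ (p i).val
      have hC : ∀ i, i ∈ C ↔ s ≤ i.val ∧ i.val < m ∧ m ≤ (p i).val := by
        intro i
        simp [C]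
      have hzC : z ∉ C := by
        rw [hC]
        omega
      by_cases hev : Even C.card
      · obtain ⟨q, hq⟩ := exists_pairing C hev
        refine ⟨C, q, ?_, hq, ?_, ?_, fun _ _ => h2⟩
        · intro i hi
          rw [hC] at hi
          omega
        · intro i hi h
          have h1 := (hq i hi).1
          rw [hC] at h1 hi
          rw [h] at h1
          omega
        · intro i j h3 h4 h5
          have h4' : i.val < j.val := h4
          have e1 : i ∈ C ↔ m ≤ (p i).val := by rw [hC]; omega
          have e2 : j ∈ C ↔ m ≤ (p j).val := by rw [hC]; omega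
          simp only [e1, e2]
          omega
      · have hev' : Even (insert z C).card := by
          rw [Finset.card_insert_of_notMem hzC]
          rw [Nat.not_even_iff_odd] at hev
          exact hev.add_one
        obtain ⟨q, hq⟩ := exists_pairing (insert z C) hev'
        refine ⟨insert z C, q, ?_, hq, ?_, ?_, fun _ _ => h2⟩
        · intro i hi
          rw [Finset.mem_insert] at hi
          rcases hi with rfl | hi
          · omega
          · rw [hC] at hi
            omega
        · intro i hi h
          obtain ⟨g1, g2, _⟩ := hq i hi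
          rw [Finset.mem_insert] at hi
          rcases hi with rfl | hi
          · rw [Finset.mem_insert] at g1
            rcases g1 with g1 | g1
            · exact g2 g1
            · rw [hC, h, hpp] at g1
              omega
          · rw [Finset.mem_insert] at g1
            rw [hC] at hi
            rcases g1 with g1 | g1
            · rw [h] at g1
              rw [g1] at hi
              omega
            · rw [hC, h] at g1
              omega
        · intro i j h3 h4 h5
          have h4' : i.val < j.val := h4
          have e1 : i ∈ insert z C ↔ m ≤ (p i).val := by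
            rw [Finset.mem_insert, hC]
            constructor
            · rintro (h | h)
              · rw [h] at h4'
                omega
              · exact h.2.2
            · intro h
              exact Or.inr ⟨h3, by omega, h⟩
          have e2 : m ≤ (p j).val → j ∈ insert z C := by
            intro h
            rw [Finset.mem_insert, hC]
            exact Or.inr ⟨by omega, h5, h⟩
          simp only [e1]
          by_cases e3 : m ≤ (p j).val
          · rw [if_pos e3, if_pos (e2 e3)]
            omega
          · rw [if_neg e3]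
            omega
  refine ⟨Gr p q A s m, ?_, ?_, ?_, ?_⟩
  · intro i
    exact ⟨fun h => hp i h.symm, Or.inl (Or.inr (Or.inr (Or.inr (Or.inr rfl))))⟩
  · intro i j hij
    exact degrees_antitone p q A s m hp hpp hsm hU hAR hq hqp hsort hlow i j hij
  · intro i
    exact degrees_pos p q A s m hp hpp hsm hU hAR hq hqp hlow i
  · intro G' hG' hdeg
    have h1 := bound p' s m G' hG' hmn hsm
    have h2 := tight p q A s m hp hpp hsm hU
    simp only [hdeg] at h1
    omega

end Graph

/-! ### The theorem -/

lemma partner {n : ℕ} {M : Set (Sym2 (Fin n))} (hM : IsPerfectMatching M) :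
    ∃ p : Fin n → Fin n, (∀ i, p i ≠ i) ∧ (∀ i, p (p i) = i) ∧
      ∀ a b, s(a, b) ∈ M ↔ p a = b := by
  have h : ∀ v : Fin n, ∃ w, w ≠ v ∧ s(v, w) ∈ M ∧ ∀ w', s(v, w') ∈ M → w' = w := by
    intro v
    obtain ⟨e, ⟨he, hve⟩, huniq⟩ := hM.2 v
    obtain ⟨w, rfl⟩ := hve
    refine ⟨w, ?_, he, ?_⟩
    · rintro rfl
      exact hM.1 _ he rfl
    · intro w' hw'
      have h1 := huniq s(v, w') ⟨hw', Sym2.mem_mk_left _ _⟩
      rw [Sym2.eq_iff] at h1
      rcases h1 with ⟨_, h⟩ | ⟨h2, h3⟩
      · exact h
      · rw [h3, ← h2]
  choose p hp1 hp2 hp3 using h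
  refine ⟨p, hp1, ?_, ?_⟩
  · intro i
    have := hp3 (p i) i (by rw [Sym2.eq_swap]; exact hp2 i)
    exact this.symm
  · intro a b
    constructor
    · intro h
      exact (hp3 a b h).symm
    · rintro rfl
      exact hp2 a

lemma sub_edge {n : ℕ} {M : Set (Sym2 (Fin n))} {p : Fin n → Fin n}
    (h : ∀ a b, s(a, b) ∈ M ↔ p a = b) (G : SimpleGraph (Fin n)) :
    M ⊆ G.edgeSet ↔ ∀ i, G.Adj i (p i) := by
  constructor
  · intro hM i
    exact hM ((h i (p i)).mpr rfl)
  · intro hG e he
    induction e using Sym2.ind with
    | _ a b =>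
      have := (h a b).mp he
      rw [SimpleGraph.mem_edgeSet, ← this]
      exact hG a

lemma half {n : ℕ} {M N : Set (Sym2 (Fin n))} {p p' : Fin n → Fin n}
    (hp : ∀ i, p i ≠ i) (hpp : ∀ i, p (p i) = i) (h : ∀ a b, s(a, b) ∈ M ↔ p a = b)
    (h' : ∀ a b, s(a, b) ∈ N ↔ p' a = b) (s m : ℕ) (hsm : s ≤ m)
    (hlt : U p s m < U p' s m)
    (hmin : ∀ s' m', s' ≤ m' → m' - s' < m - s → U p s' m' = U p' s' m') :
    ¬ R M ⊆ R N := by
  intro hsub
  have hz : m ≤ s + 1 ∨ (s + 2 ≤ m ∧ ∃ z : Fin n, z.val + 1 = m ∧ (p z).val = s) := by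
    by_cases hm : m ≤ s + 1
    · exact Or.inl hm
    · right
      obtain ⟨m', rfl⟩ : ∃ m', m = m' + 1 := ⟨m - 1, by omega⟩
      have e1 := U_rec p s m'
      have e2 := U_rec p' s m'
      rw [hmin s m' (by omega) (by omega), hmin (s + 1) (m' + 1) (by omega) (by omega),
        hmin (s + 1) m' (by omega) (by omega)] at e1
      have e3 : ind p s m' ≠ 0 := by
        unfold ind
        omega
      obtain ⟨z, hz1, hz2⟩ := ind_one p s m' e3
      exact ⟨by omega, z, by omega, hz2⟩
  obtain ⟨G, g1, g2, g3, g4⟩ := step p s m hp hpp hsm p' hlt hz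
  have hmem : (fun i => (G.neighborSet i).ncard) ∈ R M :=
    ⟨g2, g3, G, fun i => rfl, (sub_edge h G).mpr g1⟩
  obtain ⟨_, _, G', hG1, hG2⟩ := hsub hmem
  exact g4 G' ((sub_edge h' G').mp hG2) hG1

/-- For every even `n` the realizability preorder on the perfect matchings of the complete graph
with the vertices `Fin n` is antisymmetric. -/
theorem result (n : ℕ) (_hn : Even n) (M N : Set (Sym2 (Fin n)))
    (hM : IsPerfectMatching M) (hN : IsPerfectMatching N)
    (h1 : Below M N) (h2 : Below N M) : M = N := by
  obtain ⟨p, hp, hpp, hpM⟩ := partner hM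
  obtain ⟨p', hp', hpp', hpN⟩ := partner hN
  by_cases heq : p = p'
  · subst heq
    ext e
    induction e using Sym2.ind with
    | _ a b => rw [hpM, hpN]
  · exfalso
    have hex : ∃ r s, U p s (s + r) ≠ U p' s (s + r) := by
      by_contra hcon
      push Not at hcon
      apply heq
      apply exists_ne p p' hp hpp hpp'
      intro s m hsm
      have := hcon (m - s) s
      rwa [Nat.add_sub_cancel' hsm] at this
    classical
    obtain ⟨s, hs⟩ := Nat.find_spec hex
    set r := Nat.find hex with hr
    have hmin : ∀ s' m', s' ≤ m' → m' - s' < (s + r) - s → U p s' m' = U p' s' m' := by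
      intro s' m' hle hlt
      by_contra hne
      have h3 : m' - s' < r := by omega
      apply Nat.find_min hex h3
      exact ⟨s', by rwa [Nat.add_sub_cancel' hle]⟩
    rcases lt_or_gt_of_ne hs with hlt | hgt
    · exact half hp hpp hpM hpN s (s + r) (by omega) hlt hmin h2
    · exact half hp' hpp' hpN hpM s (s + r) (by omega) hgt
        (fun s' m' a b => (hmin s' m' a b).symm) h1

end Pool.Agent.Results.MP_cd59f5_co.Antisymmetric
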